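import Pool.Agent.W187.WQ.Stmts5
import Pool.Agent.W638.WP.R3

/-!
# Coercivity of the rational Weil form for length log 5 on functions orthogonal to degree <= 42
-/

set_option autoImplicit false

open MeasureTheory Set

namespace Pool.Agent.W578.WQ

open Pool.Agent.W187.WP Pool.Agent.W187.WQ

/-- Orthogonality to polynomials of low degree. -/
theorem orth (K : ℕ) (w : ℝ → ℝ) (hw : Continuous w)
    (h0 : ∀ k ≤ K, ∫ x in (-1 : ℝ)..1, w x * x ^ k = 0) :
    ∀ (P : List ℚ) (m : ℕ), P.length + m ≤ K + 1 →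
      ∫ x in (-1 : ℝ)..1, w x * (x ^ m * ev P x) = 0
  | [], m, _ => by simp
  | a :: P, m, hm => by
      have h1 := orth K w hw h0 P (m + 1) (by simp only [List.length_cons] at hm; omega)
      have h2 := h0 m (by simp only [List.length_cons] at hm; omega)
      have c1 : Continuous (fun x : ℝ => (a : ℝ) * (w x * x ^ m)) := by fun_prop
      have c2 : Continuous (fun x : ℝ => w x * (x ^ (m + 1) * ev P x)) := by
        have := continuous_ev P
        fun_prop
      have e : (fun x : ℝ => w x * (x ^ m * ev (a :: P) x)) =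
          fun x : ℝ => (a : ℝ) * (w x * x ^ m) + w x * (x ^ (m + 1) * ev P x) := by
        funext x
        simp only [ev_cons]
        ring
      rw [e, intervalIntegral.integral_add (c1.intervalIntegrable _ _)
        (c2.intervalIntegrable _ _), intervalIntegral.integral_const_mul, h1, h2]
      ring

theorem orth' (K : ℕ) (w : ℝ → ℝ) (hw : Continuous w)
    (h0 : ∀ k ≤ K, ∫ x in (-1 : ℝ)..1, w x * x ^ k = 0) (P : List ℚ) (hP : P.length ≤ K + 1) :
    ∫ x in (-1 : ℝ)..1, w x * ev P x = 0 := by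
  have h := orth K w hw h0 P 0 (by omega)
  simpa using h

/-- symmetric integrands: the triangle is half of the square -/
theorem tri_sym (F : ℝ → ℝ → ℝ) (hF : Continuous (Function.uncurry F))
    (hs : ∀ x y, F x y = F y x) :
    2 * (∫ x in (-1 : ℝ)..1, (∫ y in x..1, F x y)) =
      ∫ x in (-1 : ℝ)..1, (∫ y in (-1 : ℝ)..1, F x y) := by
  have h1 := Pool.Agent.W120.WP.tri F hF
  have hc1 : Continuous (fun x => ∫ y in x..1, F x y) :=
    Pool.Agent.W120.WP.inner_continuous _ hF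
  have hsec : ∀ x, Continuous (fun y => F x y) := fun x => by
    have h : Continuous (fun y : ℝ => Function.uncurry F (x, y)) :=
      hF.comp (Continuous.prodMk continuous_const continuous_id)
    exact h
  have e2 : ∫ y in (-1 : ℝ)..1, (∫ x in (-1 : ℝ)..y, F x y) =
      ∫ x in (-1 : ℝ)..1, (∫ y in (-1 : ℝ)..x, F x y) := by
    congr 1
    funext y
    congr 1
    funext x
    exact hs x y
  have hc2 : Continuous (fun x => ∫ y in (-1 : ℝ)..x, F x y) := by
    exact intervalIntegral.continuous_parametric_intervalIntegral_of_continuous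
      (f := F) hF continuous_id
  have e3 : ∫ x in (-1 : ℝ)..1, (∫ y in (-1 : ℝ)..1, F x y) =
      (∫ x in (-1 : ℝ)..1, (∫ y in x..1, F x y)) +
      ∫ x in (-1 : ℝ)..1, (∫ y in (-1 : ℝ)..x, F x y) := by
    rw [← intervalIntegral.integral_add (hc1.intervalIntegrable _ _)
      (hc2.intervalIntegrable _ _)]
    congr 1
    funext x
    rw [add_comm, intervalIntegral.integral_add_adjacent_intervals
      ((hsec x).intervalIntegrable _ _) ((hsec x).intervalIntegrable _ _)]
  rw [e3, ← e2, ← h1]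
  ring

/-- moments around `x` -/
theorem moment (K : ℕ) (w : ℝ → ℝ) (hw : Continuous w)
    (h0 : ∀ k ≤ K, ∫ x in (-1 : ℝ)..1, w x * x ^ k = 0) (m : ℕ) (hm : m ≤ K) (x : ℝ) :
    ∫ y in (-1 : ℝ)..1, w y * (y - x) ^ m = 0 := by
  have e : (fun y : ℝ => w y * (y - x) ^ m) = fun y : ℝ => ∑ i ∈ Finset.range (m + 1),
      ((-x) ^ (m - i) * (m.choose i : ℝ)) * (w y * y ^ i) := by
    funext y
    rw [sub_eq_add_neg, add_pow, Finset.mul_sum]
    refine Finset.sum_congr rfl fun i _ => ?_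
    ring
  rw [e, intervalIntegral.integral_finsetSum]
  · refine Finset.sum_eq_zero fun i hi => ?_
    rw [intervalIntegral.integral_const_mul, h0 i (by
      have := Finset.mem_range.mp hi
      omega), mul_zero]
  · intro i _
    exact Continuous.intervalIntegrable (by fun_prop) _ _

theorem even_zero (K : ℕ) (w : ℝ → ℝ) (hw : Continuous w)
    (h0 : ∀ k ≤ K, ∫ x in (-1 : ℝ)..1, w x * x ^ k = 0) (j : ℕ) (hj : 2 * j ≤ K) :
    ∫ x in (-1 : ℝ)..1, (∫ y in x..1, (y - x) ^ (2 * j) * (w x * w y)) = 0 := by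
  have hF : Continuous (Function.uncurry (fun x y : ℝ => (y - x) ^ (2 * j) * (w x * w y))) := by
    have : Continuous (fun p : ℝ × ℝ => (p.2 - p.1) ^ (2 * j) * (w p.1 * w p.2)) := by fun_prop
    exact this
  have h1 := tri_sym (fun x y : ℝ => (y - x) ^ (2 * j) * (w x * w y)) hF (by
    intro x y
    have : (y - x) ^ (2 * j) = (x - y) ^ (2 * j) := by
      rw [pow_mul, pow_mul]
      congr 1
      ring
    rw [this]
    ring)
  have h2 : ∫ x in (-1 : ℝ)..1, (∫ y in (-1 : ℝ)..1, (y - x) ^ (2 * j) * (w x * w y)) = 0 := by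
    have : (fun x : ℝ => ∫ y in (-1 : ℝ)..1, (y - x) ^ (2 * j) * (w x * w y)) = fun _ => 0 := by
      funext x
      have e : (fun y : ℝ => (y - x) ^ (2 * j) * (w x * w y)) =
          fun y : ℝ => w x * (w y * (y - x) ^ (2 * j)) := by
        funext y
        ring
      rw [e, intervalIntegral.integral_const_mul, moment K w hw h0 (2 * j) hj x, mul_zero]
    rw [this]
    simp
  rw [h2] at h1
  linarith

theorem even_zero' (K : ℕ) (w : ℝ → ℝ) (hw : Continuous w)
    (h0 : ∀ k ≤ K, ∫ x in (-1 : ℝ)..1, w x * x ^ k = 0) :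
    ∀ (P : List ℚ) (m : ℕ), 2 * (P.length + m) ≤ K + 2 →
      ∫ x in (-1 : ℝ)..1, (∫ y in x..1,
        ((y - x) ^ (2 * m) * ev P ((y - x) ^ 2)) * (w x * w y)) = 0
  | [], m, _ => by simp
  | a :: P, m, hm => by
      have h1 := even_zero' K w hw h0 P (m + 1) (by simp only [List.length_cons] at hm; omega)
      have h2 := even_zero K w hw h0 m (by simp only [List.length_cons] at hm; omega)
      have hev := continuous_ev P
      have hF1 : Continuous (Function.uncurry (fun x y : ℝ =>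
          (a : ℝ) * ((y - x) ^ (2 * m) * (w x * w y)))) := by
        have : Continuous (fun p : ℝ × ℝ =>
          (a : ℝ) * ((p.2 - p.1) ^ (2 * m) * (w p.1 * w p.2))) := by fun_prop
        exact this
      have hF2 : Continuous (Function.uncurry (fun x y : ℝ =>
          ((y - x) ^ (2 * (m + 1)) * ev P ((y - x) ^ 2)) * (w x * w y))) := by
        have : Continuous (fun p : ℝ × ℝ =>
          ((p.2 - p.1) ^ (2 * (m + 1)) * ev P ((p.2 - p.1) ^ 2)) * (w p.1 * w p.2)) := by
          fun_prop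
        exact this
      have hc1 := Pool.Agent.W120.WP.inner_continuous _ hF1
      have hc2 := Pool.Agent.W120.WP.inner_continuous _ hF2
      have e : ∫ x in (-1 : ℝ)..1, (∫ y in x..1,
          ((y - x) ^ (2 * m) * ev (a :: P) ((y - x) ^ 2)) * (w x * w y)) =
          (∫ x in (-1 : ℝ)..1, (∫ y in x..1, (a : ℝ) * ((y - x) ^ (2 * m) * (w x * w y)))) +
          ∫ x in (-1 : ℝ)..1, (∫ y in x..1,
            ((y - x) ^ (2 * (m + 1)) * ev P ((y - x) ^ 2)) * (w x * w y)) := by
        rw [← intervalIntegral.integral_add (hc1.intervalIntegrable _ _)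
          (hc2.intervalIntegrable _ _)]
        congr 1
        funext x
        rw [← intervalIntegral.integral_add (Continuous.intervalIntegrable (by fun_prop) _ _)
          (Continuous.intervalIntegrable (by fun_prop) _ _)]
        congr 1
        funext y
        rw [ev_cons]
        ring
      have e1 : ∫ x in (-1 : ℝ)..1, (∫ y in x..1, (a : ℝ) * ((y - x) ^ (2 * m) * (w x * w y)))
          = 0 := by
        have : (fun x : ℝ => ∫ y in x..1, (a : ℝ) * ((y - x) ^ (2 * m) * (w x * w y))) =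
            fun x : ℝ => (a : ℝ) * ∫ y in x..1, (y - x) ^ (2 * m) * (w x * w y) := by
          funext x
          rw [intervalIntegral.integral_const_mul]
        rw [this, intervalIntegral.integral_const_mul, h2, mul_zero]
      rw [e, e1, h1, add_zero]

/-- A bound of the values on `[-4, 4]`. -/
def absv4 : List ℚ → ℚ
  | [] => 0
  | a :: l => |a| + 4 * absv4 l

theorem abs_ev_le4 : ∀ (l : List ℚ) (u : ℝ), |u| ≤ 4 → |ev l u| ≤ ((absv4 l : ℚ) : ℝ)
  | [], u, _ => by simp [absv4]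
  | a :: l, u, hu => by
      have h := abs_ev_le4 l u hu
      simp only [ev_cons, absv4]
      push_cast
      calc |(a : ℝ) + u * ev l u| ≤ |(a : ℝ)| + |u * ev l u| := abs_add_le _ _
        _ = |(a : ℝ)| + |u| * |ev l u| := by rw [abs_mul]
        _ ≤ |(a : ℝ)| + 4 * ((absv4 l : ℚ) : ℝ) := by
            have := mul_le_mul hu h (abs_nonneg _) (by norm_num)
            linarith

/-- the coefficient of degree one -/
def b1 : ℚ := -67455654000000000004820856766025098471/2500000000000000000000000000000000000000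

theorem rho5 : |b1| + 8 * absv4 (ext0 p5.bt.tail).tail ≤ 32 / 1000 := by
  decide +kernel

theorem head5 : ext0 p5.bt.tail = b1 :: (ext0 p5.bt.tail).tail := by
  decide +kernel

theorem ev_split (P : List ℚ) (x : ℝ) :
    ev P x = ev (ext0 P) (x ^ 2) + x * ev (ext0 P.tail) (x ^ 2) := by
  have h1 := ev_ext0 P x
  have h2 := ev_ext1 P x
  linarith

theorem kernel5 (w : ℝ → ℝ) (hw : Continuous w)
    (h0 : ∀ k ≤ 42, ∫ x in (-1 : ℝ)..1, w x * x ^ k = 0) :
    ∫ x in (-1 : ℝ)..1, (∫ y in x..1, ev p5.bt (y - x) * (w x * w y)) ≤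
      32 / 1000 * (∫ x in (-1 : ℝ)..1, w x ^ 2) := by
  set E : List ℚ := padd [b1] (ext0 p5.bt) with hE
  set O : List ℚ := (ext0 p5.bt.tail).tail with hO
  have hlen : 2 * (E.length + 0) ≤ 42 + 2 := by
    rw [hE]
    decide +kernel
  have hz := even_zero' 42 w hw h0 E 0 hlen
  have hcE := continuous_ev E
  have hcO := continuous_ev O
  have hcB := continuous_ev p5.bt
  have hev : ∀ s : ℝ, ev p5.bt s = ev E (s ^ 2) + ((b1 : ℝ) * (s - 1) + s ^ 3 * ev O (s ^ 2)) := by
    intro s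
    rw [ev_split p5.bt s, head5, hE, ev_padd]
    simp only [ev_cons, ev_nil]
    ring
  have hF1 : Continuous (Function.uncurry (fun x y : ℝ =>
      ((y - x) ^ (2 * 0) * ev E ((y - x) ^ 2)) * (w x * w y))) := by
    have : Continuous (fun p : ℝ × ℝ =>
      ((p.2 - p.1) ^ (2 * 0) * ev E ((p.2 - p.1) ^ 2)) * (w p.1 * w p.2)) := by fun_prop
    exact this
  have hF2 : Continuous (Function.uncurry
      (fun x y : ℝ => ((b1 : ℝ) * ((y - x) - 1) + (y - x) ^ 3 * ev O ((y - x) ^ 2)) *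
        (w x * w y))) := by
    have : Continuous (fun p : ℝ × ℝ =>
      ((b1 : ℝ) * ((p.2 - p.1) - 1) + (p.2 - p.1) ^ 3 * ev O ((p.2 - p.1) ^ 2)) *
        (w p.1 * w p.2)) := by fun_prop
    exact this
  have hF3 : Continuous (Function.uncurry
      (fun x y : ℝ => (16 / 1000 : ℝ) * (w x ^ 2 + w y ^ 2))) := by
    have : Continuous (fun p : ℝ × ℝ => (16 / 1000 : ℝ) * (w p.1 ^ 2 + w p.2 ^ 2)) := by fun_prop
    exact this
  have hc1 := Pool.Agent.W120.WP.inner_continuous _ hF1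
  have hc2 := Pool.Agent.W120.WP.inner_continuous _ hF2
  have hc3 := Pool.Agent.W120.WP.inner_continuous _ hF3
  have e1 : ∫ x in (-1 : ℝ)..1, (∫ y in x..1, ev p5.bt (y - x) * (w x * w y)) =
      (∫ x in (-1 : ℝ)..1, (∫ y in x..1,
        ((y - x) ^ (2 * 0) * ev E ((y - x) ^ 2)) * (w x * w y))) +
      ∫ x in (-1 : ℝ)..1, (∫ y in x..1,
        ((b1 : ℝ) * ((y - x) - 1) + (y - x) ^ 3 * ev O ((y - x) ^ 2)) * (w x * w y)) := by
    rw [← intervalIntegral.integral_add (hc1.intervalIntegrable _ _) (hc2.intervalIntegrable _ _)]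
    congr 1
    funext x
    rw [← intervalIntegral.integral_add (Continuous.intervalIntegrable (by fun_prop) _ _)
      (Continuous.intervalIntegrable (by fun_prop) _ _)]
    congr 1
    funext y
    rw [hev]
    ring
  have hrho : |(b1 : ℝ)| + 8 * ((absv4 O : ℚ) : ℝ) ≤ 32 / 1000 := by
    have h3 := rho5
    rw [← hO] at h3
    have h5 : ((|b1| + 8 * absv4 O : ℚ) : ℝ) ≤ ((32 / 1000 : ℚ) : ℝ) := by exact_mod_cast h3
    push_cast at h5
    exact h5
  have e3 : ∫ x in (-1 : ℝ)..1, (∫ y in x..1,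
        ((b1 : ℝ) * ((y - x) - 1) + (y - x) ^ 3 * ev O ((y - x) ^ 2)) * (w x * w y)) ≤
      ∫ x in (-1 : ℝ)..1, (∫ y in x..1, (16 / 1000 : ℝ) * (w x ^ 2 + w y ^ 2)) := by
    refine intervalIntegral.integral_mono_on (by norm_num) (hc2.intervalIntegrable _ _)
      (hc3.intervalIntegrable _ _) fun x hx => ?_
    refine intervalIntegral.integral_mono_on hx.2
      (Continuous.intervalIntegrable (by fun_prop) _ _)
      (Continuous.intervalIntegrable (by fun_prop) _ _) fun y hy => ?_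
    have hu0 : 0 ≤ y - x := by linarith [hy.1]
    have hu2 : y - x ≤ 2 := by linarith [hx.1, hy.2]
    generalize y - x = u at hu0 hu2
    have hu : |u ^ 2| ≤ 4 := by
      rw [abs_of_nonneg (by positivity)]
      nlinarith
    have h1 := abs_ev_le4 O (u ^ 2) hu
    have h2 : |u - 1| ≤ 1 := by
      rw [abs_le]; constructor <;> linarith
    have h3 : |u ^ 3| ≤ 8 := by
      rw [abs_of_nonneg (by positivity)]
      nlinarith [mul_nonneg hu0 hu0, mul_nonneg (mul_nonneg hu0 hu0) (sub_nonneg.mpr hu2)]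
    have h6 : |(b1 : ℝ) * (u - 1) + u ^ 3 * ev O (u ^ 2)| ≤ 32 / 1000 := by
      refine (abs_add_le _ _).trans ?_
      rw [abs_mul, abs_mul]
      have k1 := mul_le_mul_of_nonneg_left h2 (abs_nonneg (b1 : ℝ))
      have k2 := mul_le_mul h3 h1 (abs_nonneg _) (by norm_num)
      linarith
    have h7 : ((b1 : ℝ) * (u - 1) + u ^ 3 * ev O (u ^ 2)) * (w x * w y) ≤
        |(b1 : ℝ) * (u - 1) + u ^ 3 * ev O (u ^ 2)| * |w x * w y| := by
      rw [← abs_mul]; exact le_abs_self _
    have h8 : |w x * w y| ≤ (w x ^ 2 + w y ^ 2) / 2 := by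
      rw [abs_le]; constructor <;> nlinarith [sq_nonneg (w x + w y), sq_nonneg (w x - w y)]
    have h9 : |(b1 : ℝ) * (u - 1) + u ^ 3 * ev O (u ^ 2)| * |w x * w y| ≤
        32 / 1000 * ((w x ^ 2 + w y ^ 2) / 2) :=
      mul_le_mul h6 h8 (abs_nonneg _) (by norm_num)
    calc _ ≤ _ := h7
      _ ≤ _ := h9
      _ = _ := by ring
  have e4 : ∫ x in (-1 : ℝ)..1, (∫ y in x..1, (16 / 1000 : ℝ) * (w x ^ 2 + w y ^ 2)) =
      32 / 1000 * (∫ x in (-1 : ℝ)..1, w x ^ 2) := by
    have : (fun x : ℝ => ∫ y in x..1, (16 / 1000 : ℝ) * (w x ^ 2 + w y ^ 2)) =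
        fun x : ℝ => (16 / 1000 : ℝ) * ∫ y in x..1, (w x ^ 2 + w y ^ 2) := by
      funext x
      rw [intervalIntegral.integral_const_mul]
    rw [this, intervalIntegral.integral_const_mul, Pool.Agent.W638.WP.tri_sq w hw]
    ring
  rw [e1, hz]
  linarith

/-- one shift -/
theorem shift_le (w : ℝ → ℝ) (hw : Continuous w) (l : ℝ) (hl : l ≤ 2) :
    2 * (∫ x in (-1 : ℝ)..(1 - l), w x * w (x + l)) ≤
      (∫ x in (-1 : ℝ)..(1 - l), w x ^ 2) + ∫ x in (l - 1)..1, w x ^ 2 := by
  have e1 : ∫ x in (-1 : ℝ)..(1 - l), w (x + l) ^ 2 = ∫ x in (l - 1)..1, w x ^ 2 := by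
    rw [intervalIntegral.integral_comp_add_right (fun x => w x ^ 2)]
    congr 1 <;> ring
  rw [← e1, ← intervalIntegral.integral_const_mul, ← intervalIntegral.integral_add
      (Continuous.intervalIntegrable (by fun_prop) _ _)
      (Continuous.intervalIntegrable (by fun_prop) _ _)]
  refine intervalIntegral.integral_mono_on (by linarith)
      (Continuous.intervalIntegrable (by fun_prop) _ _)
      (Continuous.intervalIntegrable (by fun_prop) _ _) fun x _ => ?_
  nlinarith [sq_nonneg (w x - w (x + l))]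

/-- enlarging the intervals -/
theorem shift_le' (w : ℝ → ℝ) (hw : Continuous w) (l b : ℝ) (hl : l ≤ 2) (hb : 1 - l ≤ b) :
    2 * (∫ x in (-1 : ℝ)..(1 - l), w x * w (x + l)) ≤
      (∫ x in (-1 : ℝ)..b, w x ^ 2) + ∫ x in (-b)..1, w x ^ 2 := by
  have h1 := shift_le w hw l hl
  have hi : ∀ a b : ℝ, IntervalIntegrable (fun x => w x ^ 2) volume a b := fun a b =>
    Continuous.intervalIntegrable (by fun_prop) _ _
  have e1 := intervalIntegral.integral_add_adjacent_intervals (hi (-1) (1 - l)) (hi (1 - l) b)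
  have e2 := intervalIntegral.integral_add_adjacent_intervals (hi (-b) (l - 1)) (hi (l - 1) 1)
  have p1 : 0 ≤ ∫ x in (1 - l)..b, w x ^ 2 :=
    intervalIntegral.integral_nonneg hb fun x _ => sq_nonneg _
  have p2 : 0 ≤ ∫ x in (-b)..(l - 1), w x ^ 2 :=
    intervalIntegral.integral_nonneg (by linarith) fun x _ => sq_nonneg _
  linarith

theorem log3_ge : (10985 / 10000 : ℝ) ≤ Real.log 3 := by
  have h1 : (84 : ℝ) * Real.log 2 ≤ 53 * Real.log 3 := by
    have : Real.log ((2 : ℝ) ^ 84) ≤ Real.log ((3 : ℝ) ^ 53) :=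
      Real.log_le_log (by norm_num) (by norm_num)
    rw [Real.log_pow, Real.log_pow] at this
    exact_mod_cast this
  have h2 := Real.log_two_gt_d9
  linarith

theorem Umm_ge (m : ℕ) (x : ℝ) (s : ℕ) (h : s ≤ m) :
    ∑ k ∈ Finset.range s, x ^ (2 * (k + 1)) / (2 * ((k : ℝ) + 1)) ≤ Umm m x := by
  unfold Umm
  refine Finset.sum_le_sum_of_subset_of_nonneg (Finset.range_mono h) fun k _ _ => ?_
  have : (0 : ℝ) ≤ x ^ (2 * (k + 1)) := by
    rw [pow_mul]; positivity
  positivity

theorem Umm_ge1 (x : ℝ) (hx : 365 / 1000 ≤ |x|) : 66 / 1000 ≤ Umm 128 x := by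
  refine le_trans ?_ (Umm_ge 128 x 1 (by norm_num))
  have h1 : (365 / 1000 : ℝ) ^ 2 ≤ x ^ 2 := by
    rw [← sq_abs x]
    exact pow_le_pow_left₀ (by norm_num) hx 2
  norm_num
  linarith

theorem Umm_ge4 (x : ℝ) (hx : 7227 / 10000 ≤ |x|) : 362 / 1000 ≤ Umm 128 x := by
  refine le_trans ?_ (Umm_ge 128 x 4 (by norm_num))
  have h1 : (7227 / 10000 : ℝ) ^ 2 ≤ x ^ 2 := by
    rw [← sq_abs x]
    exact pow_le_pow_left₀ (by norm_num) hx 2
  have h2 : ((7227 / 10000 : ℝ) ^ 2) ^ 2 ≤ (x ^ 2) ^ 2 := pow_le_pow_left₀ (by norm_num) h1 2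
  have h3 : ((7227 / 10000 : ℝ) ^ 2) ^ 3 ≤ (x ^ 2) ^ 3 := pow_le_pow_left₀ (by norm_num) h1 3
  have h4 : ((7227 / 10000 : ℝ) ^ 2) ^ 4 ≤ (x ^ 2) ^ 4 := pow_le_pow_left₀ (by norm_num) h1 4
  rw [← pow_mul] at h2 h3 h4
  rw [← pow_mul] at h2 h3 h4
  norm_num [Finset.sum_range_succ] at h1 h2 h3 h4 ⊢
  linarith

theorem Umm_nonneg (m : ℕ) (x : ℝ) : 0 ≤ Umm m x := by
  have := Umm_ge m x 0 (Nat.zero_le _)
  simpa using this

theorem Umm_cont (m : ℕ) : Continuous (Umm m) := by
  unfold Umm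
  fun_prop

theorem harm43 : (43498 / 10000 : ℝ) ≤ ∑ i ∈ Finset.range (42 + 1), (1 : ℝ) / (i + 1) := by
  norm_num [Finset.sum_range_succ]

/-- lower bound of an integral over a piece -/
theorem piece (w : ℝ → ℝ) (hw : Continuous w) (a b c : ℝ) (hab : a ≤ b)
    (h : ∀ x ∈ Icc a b, c ≤ Umm 128 x) :
    c * (∫ x in a..b, w x ^ 2) ≤ ∫ x in a..b, Umm 128 x * w x ^ 2 := by
  have hU := Umm_cont 128
  rw [← intervalIntegral.integral_const_mul]
  exact intervalIntegral.integral_mono_on hab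
      (Continuous.intervalIntegrable (by fun_prop) _ _)
      (Continuous.intervalIntegrable (by fun_prop) _ _) fun x hx =>
    mul_le_mul_of_nonneg_right (h x hx) (sq_nonneg _)

theorem r3_5 : S_TK → S_R3_5 := by
  intro hTK w hw h0
  have hc : Continuous w := hw.continuous
  have hi : ∀ a b : ℝ, IntervalIntegrable (fun x => w x ^ 2) volume a b := fun a b =>
    Continuous.intervalIntegrable (by fun_prop) _ _
  have hU := Umm_cont 128
  have hiU : ∀ a b : ℝ, IntervalIntegrable (fun x => Umm 128 x * w x ^ 2) volume a b :=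
    fun a b => Continuous.intervalIntegrable (by fun_prop) _ _
  have h1 := hTK 42 w hw h0
  have h3 : ∫ x in (-1 : ℝ)..1, w x * ev p5.cp x = 0 := orth' 42 w hc h0 p5.cp (by decide)
  have h4 : ∫ x in (-1 : ℝ)..1, w x * ev p5.sp x = 0 := orth' 42 w hc h0 p5.sp (by decide)
  have h5 := kernel5 w hc h0
  -- the shifts
  have l2 := Real.log_two_gt_d9
  have l2' := Real.log_two_lt_d9
  have l3 := log3_ge
  have l3' : Real.log 3 ≤ 2 * Real.log 2 := by
    have : Real.log 3 ≤ Real.log ((2 : ℝ) ^ 2) := Real.log_le_log (by norm_num) (by norm_num)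
    rw [Real.log_pow] at this
    exact_mod_cast this
  have l4 : Real.log 4 = 2 * Real.log 2 := by
    rw [show (4 : ℝ) = 2 ^ 2 by norm_num, Real.log_pow]
    norm_num
  have d0 : ell5 0 = Real.log 2 * (12500 / 10059) := by
    simp only [ell5, ns5, List.getD_cons_zero]
    push_cast
    ring
  have d1 : ell5 1 = Real.log 3 * (12500 / 10059) := by
    simp only [ell5, ns5, List.getD_cons_succ, List.getD_cons_zero]
    push_cast
    ring
  have d2 : ell5 2 = Real.log 4 * (12500 / 10059) := by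
    simp only [ell5, ns5, List.getD_cons_succ, List.getD_cons_zero]
    push_cast
    ring
  have s0 := shift_le' w hc (ell5 0) (1387 / 10000) (by rw [d0]; linarith) (by rw [d0]; linarith)
  have s1 := shift_le' w hc (ell5 1) (-(365 / 1000)) (by rw [d1]; linarith) (by rw [d1]; linarith)
  have s2 := shift_le' w hc (ell5 2) (-(7227 / 10000)) (by rw [d2, l4]; linarith)
    (by rw [d2, l4]; linarith)
  rw [neg_neg] at s1 s2
  -- pieces
  set W1 := ∫ x in (-1 : ℝ)..(-(7227 / 10000)), w x ^ 2 with hW1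
  set W2 := ∫ x in (-(7227 / 10000) : ℝ)..(-(365 / 1000)), w x ^ 2 with hW2
  set W3 := ∫ x in (-(365 / 1000) : ℝ)..(-(1387 / 10000)), w x ^ 2 with hW3
  set W4 := ∫ x in (-(1387 / 10000) : ℝ)..(1387 / 10000), w x ^ 2 with hW4
  set W5 := ∫ x in (1387 / 10000 : ℝ)..(365 / 1000), w x ^ 2 with hW5
  set W6 := ∫ x in (365 / 1000 : ℝ)..(7227 / 10000), w x ^ 2 with hW6
  set W7 := ∫ x in (7227 / 10000 : ℝ)..1, w x ^ 2 with hW7
  have nn : ∀ a b : ℝ, a ≤ b → 0 ≤ ∫ x in a..b, w x ^ 2 := fun a b hab =>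
    intervalIntegral.integral_nonneg hab fun x _ => sq_nonneg _
  have n1 : 0 ≤ W1 := nn _ _ (by norm_num)
  have n2 : 0 ≤ W2 := nn _ _ (by norm_num)
  have n3 : 0 ≤ W3 := nn _ _ (by norm_num)
  have n4 : 0 ≤ W4 := nn _ _ (by norm_num)
  have n5 : 0 ≤ W5 := nn _ _ (by norm_num)
  have n6 : 0 ≤ W6 := nn _ _ (by norm_num)
  have n7 : 0 ≤ W7 := nn _ _ (by norm_num)
  have adj : ∀ a b c : ℝ, (∫ x in a..c, w x ^ 2) =
      (∫ x in a..b, w x ^ 2) + ∫ x in b..c, w x ^ 2 := fun a b c =>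
    (intervalIntegral.integral_add_adjacent_intervals (hi a b) (hi b c)).symm
  have adjU : ∀ a b c : ℝ, (∫ x in a..c, Umm 128 x * w x ^ 2) =
      (∫ x in a..b, Umm 128 x * w x ^ 2) + ∫ x in b..c, Umm 128 x * w x ^ 2 := fun a b c =>
    (intervalIntegral.integral_add_adjacent_intervals (hiU a b) (hiU b c)).symm
  have t2 : ∫ x in (-1 : ℝ)..(-(365 / 1000)), w x ^ 2 = W1 + W2 := adj _ _ _
  have t3 : ∫ x in (-1 : ℝ)..(-(1387 / 10000)), w x ^ 2 = W1 + W2 + W3 := by
    rw [adj _ (-(365 / 1000)) _, t2]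
  have t4 : ∫ x in (-1 : ℝ)..(1387 / 10000), w x ^ 2 = W1 + W2 + W3 + W4 := by
    rw [adj _ (-(1387 / 10000)) _, t3]
  have t6 : ∫ x in (365 / 1000 : ℝ)..1, w x ^ 2 = W6 + W7 := adj _ _ _
  have t5 : ∫ x in (1387 / 10000 : ℝ)..1, w x ^ 2 = W5 + (W6 + W7) := by
    rw [adj _ (365 / 1000) _, t6]
  have t4' : ∫ x in (-(1387 / 10000) : ℝ)..1, w x ^ 2 = W4 + (W5 + (W6 + W7)) := by
    rw [adj _ (1387 / 10000) _, t5]
  have tN : ∫ x in (-1 : ℝ)..1, w x ^ 2 = W1 + W2 + W3 + (W4 + (W5 + (W6 + W7))) := by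
    rw [adj _ (-(1387 / 10000)) _, t3, t4']
  -- the potential
  have u1 := piece w hc (-1) (-(7227 / 10000)) (362 / 1000) (by norm_num) fun x hx =>
    Umm_ge4 x (by rw [abs_of_nonpos (by linarith [hx.2])]; linarith [hx.2])
  have u2 := piece w hc (-(7227 / 10000)) (-(365 / 1000)) (66 / 1000) (by norm_num) fun x hx =>
    Umm_ge1 x (by rw [abs_of_nonpos (by linarith [hx.2])]; linarith [hx.2])
  have u3 := piece w hc (-(365 / 1000)) (365 / 1000) 0 (by norm_num) fun x _ =>
    Umm_nonneg 128 x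
  have u6 := piece w hc (365 / 1000) (7227 / 10000) (66 / 1000) (by norm_num) fun x hx =>
    Umm_ge1 x (by rw [abs_of_nonneg (by linarith [hx.1])]; linarith [hx.1])
  have u7 := piece w hc (7227 / 10000) 1 (362 / 1000) (by norm_num) fun x hx =>
    Umm_ge4 x (by rw [abs_of_nonneg (by linarith [hx.1])]; linarith [hx.1])
  have uT : ∫ x in (-1 : ℝ)..1, Umm 128 x * w x ^ 2 =
      (∫ x in (-1 : ℝ)..(-(7227 / 10000)), Umm 128 x * w x ^ 2) +
      ((∫ x in (-(7227 / 10000) : ℝ)..(-(365 / 1000)), Umm 128 x * w x ^ 2) +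
      ((∫ x in (-(365 / 1000) : ℝ)..(365 / 1000), Umm 128 x * w x ^ 2) +
      ((∫ x in (365 / 1000 : ℝ)..(7227 / 10000), Umm 128 x * w x ^ 2) +
      ∫ x in (7227 / 10000 : ℝ)..1, Umm 128 x * w x ^ 2))) := by
    rw [adjU _ (-(7227 / 10000)) _, adjU (-(7227 / 10000)) (-(365 / 1000)) 1,
      adjU (-(365 / 1000)) (365 / 1000) 1, adjU (365 / 1000) (7227 / 10000) 1]
  rw [t4, t4'] at s0
  rw [t2, t6] at s1
  -- assembly
  have hH : (43498 / 10000 : ℝ) * (∫ x in (-1 : ℝ)..1, w x ^ 2) ≤ 1 / 2 * EE w :=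
    (mul_le_mul_of_nonneg_right harm43 (nn _ _ (by norm_num))).trans h1
  have hla0 : p5.la 0 = 245064535867136797928475430909/500000000000000000000000000000 := by
    simp only [Prm.la, p5, List.getD_cons_zero]
    push_cast
    ring
  have hla1 : p5.la 1 = 126856820119512795437277554509/200000000000000000000000000000 := by
    simp only [Prm.la, p5, List.getD_cons_succ, List.getD_cons_zero]
    push_cast
    ring
  have hla2 : p5.la 2 = 346573590279972654708616060729/1000000000000000000000000000000 := by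
    simp only [Prm.la, p5, List.getD_cons_succ, List.getD_cons_zero]
    push_cast
    ring
  have hc2 : ((p5.c2 : ℚ) : ℝ) = 10989159215774120419781/5000000000000000000000 := by
    simp only [p5]
    push_cast
    ring
  have hR : p5.R = 3 := rfl
  have hm : p5.m = 128 := rfl
  unfold Qg
  rw [h3, h4, hR, hm, hc2, Finset.sum_range_succ, Finset.sum_range_succ, Finset.sum_range_succ,
    Finset.sum_range_zero, hla0, hla1, hla2, uT, tN]
  rw [tN] at h5 hH
  set S0 := ∫ x in (-1 : ℝ)..(1 - ell5 0), w x * w (x + ell5 0)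
  set S1 := ∫ x in (-1 : ℝ)..(1 - ell5 1), w x * w (x + ell5 1)
  set S2 := ∫ x in (-1 : ℝ)..(1 - ell5 2), w x * w (x + ell5 2)
  have q0 := mul_le_mul_of_nonneg_left s0
    (show (0 : ℝ) ≤ 245064535867136797928475430909/500000000000000000000000000000 by norm_num)
  have q1 := mul_le_mul_of_nonneg_left s1
    (show (0 : ℝ) ≤ 126856820119512795437277554509/200000000000000000000000000000 by norm_num)
  have q2 := mul_le_mul_of_nonneg_left s2
    (show (0 : ℝ) ≤ 346573590279972654708616060729/1000000000000000000000000000000 by norm_num)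
  linarith

end Pool.Agent.W578.WQ
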