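import Mathlib
import Pool.Agent.W187.WP.Cert
import Pool.Agent.W187.WQ.Fx3

/-!
# Symmetrised expansion of the matrix
-/

open MeasureTheory Set
open Pool.Agent.W187.WP Pool.Agent.W187.WQ

namespace Pool.Agent.W578.WQ

theorem ng_expand (p : Prm) (ell : ℕ → ℝ) (c : CG) (dlt : ℝ) (hE : S_EXP) (hU : S_UI)
    (he : c.e ≤ 1)
    (hz : ∀ k < c.n, ∀ x, zfg p c.e k x = yr p.m c.e k c.Lr (zkr p c.e k) x)
    (k : ℕ) (hk : k < c.n) (l : ℕ) :
    Ng p ell c.e dlt (yfg p c) k l =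
      2 * ((∑ j ∈ Finset.range c.Lr, zkr p c.e k j * mu c.e (l + j)) + uu c.e p.m (k + l))
      + (∑ r ∈ Finset.range p.R, 2 * p.la r * GFr p c (ell r) (ell r - 1) 1 k l)
      + 2 * (p.a : ℝ) * (((ccq c.e p.cp k : ℚ) : ℝ) * ((ccq c.e p.cp l : ℚ) : ℝ) -
          ((ccq c.e p.sp k : ℚ) : ℝ) * ((ccq c.e p.sp l : ℚ) : ℝ))
      - 2 * (aa c.e p.m (k + l) + (∑ j ∈ Finset.range c.Lr, ykr p c l j * uu c.e p.m (k + j)) +
          (∑ j ∈ Finset.range c.Lr, ykr p c k j * uu c.e p.m (l + j)) +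
          ∑ j ∈ Finset.range c.Lr, ykr p c k j *
            (∑ i ∈ Finset.range c.Lr, ykr p c l i * mu c.e (j + i)))
      - (∑ r ∈ Finset.range p.R, ∑ r' ∈ Finset.range p.R, 2 * (p.la r * p.la r') *
        SS (ell r) (ell r') (c.e + 2 * k) (c.e + 2 * l))
      - 2 * dlt * mu c.e (k + l) := by
  have h1 : (∫ x in (0 : ℝ)..1, zfg p c.e k x * ph c.e l x) =
      (∑ j ∈ Finset.range c.Lr, zkr p c.e k j * mu c.e (l + j)) + uu c.e p.m (k + l) := by
    rw [← (hE p.m c.e k l c.Lr (zkr p c.e k) (zkr p c.e k)).1]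
    refine intervalIntegral.integral_congr ?_
    intro x _
    simp only
    rw [hz k hk x]
  have h2 : (∫ x in (0 : ℝ)..1, yfg p c k x * yfg p c l x) =
      aa c.e p.m (k + l) + (∑ j ∈ Finset.range c.Lr, ykr p c l j * uu c.e p.m (k + j)) +
          (∑ j ∈ Finset.range c.Lr, ykr p c k j * uu c.e p.m (l + j)) +
          ∑ j ∈ Finset.range c.Lr, ykr p c k j *
            (∑ i ∈ Finset.range c.Lr, ykr p c l i * mu c.e (j + i)) :=
    (hE p.m c.e k l c.Lr (ykr p c k) (ykr p c l)).2.1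
  have h3 : ∀ r, (∫ x in (ell r - 1)..1, (x - ell r) ^ (c.e + 2 * k) * yfg p c l x) =
      (∑ j ∈ Finset.range c.Lr, ykr p c l j * Jf (ell r) (ell r - 1) 1 (c.e + 2 * k) (c.e + 2 * j)) +
        Vf p.m (ell r) (ell r - 1) 1 (c.e + 2 * k) (c.e + 2 * l) := fun r =>
    (hE p.m c.e k l c.Lr (ykr p c k) (ykr p c l)).2.2 (ell r) (ell r - 1) 1 (c.e + 2 * k)
  have h4 : ∀ r, (∫ x in (ell r - 1)..1, (x - ell r) ^ (c.e + 2 * k) * ph c.e l x) =
      Jf (ell r) (ell r - 1) 1 (c.e + 2 * k) (c.e + 2 * l) := fun r => rfl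
  have h5 : (∫ x in (0 : ℝ)..1, ph c.e k x * ph c.e l x) = mu c.e (k + l) := by
    rw [← (hU c.e 0 (k + l)).1]
    refine intervalIntegral.integral_congr ?_
    intro x _
    simp only [ph]
    rw [← pow_add]
    congr 1
    ring
  unfold Ng
  rw [h1, h2, h5, ccq_eq c.e k he, ccq_eq c.e l he, ccq_eq c.e k he, ccq_eq c.e l he]
  simp only [h3, h4]
  have h6 : (∑ r ∈ Finset.range p.R, 2 * p.la r * GFr p c (ell r) (ell r - 1) 1 k l) =
      (∑ r ∈ Finset.range p.R, 4 * p.la r *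
        ((∑ j ∈ Finset.range c.Lr, ykr p c l j *
          Jf (ell r) (ell r - 1) 1 (c.e + 2 * k) (c.e + 2 * j)) +
        Vf p.m (ell r) (ell r - 1) 1 (c.e + 2 * k) (c.e + 2 * l))) -
      (∑ r ∈ Finset.range p.R, 2 * p.la r *
        Jf (ell r) (ell r - 1) 1 (c.e + 2 * k) (c.e + 2 * l)) := by
    rw [← Finset.sum_sub_distrib]
    refine Finset.sum_congr rfl fun r _ => ?_
    unfold GFr
    ring
  rw [h6]
  ring

/-- symmetrised expansion -/
theorem sym_ok : S_SYM := by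
  intro p ell c dlt hE hU he hz k hk l hl
  rw [ng_expand p ell c dlt hE hU he hz k hk l, ng_expand p ell c dlt hE hU he hz l hl k]
  have hs1 : (∑ r ∈ Finset.range p.R, 2 * p.la r *
        (GFr p c (ell r) (ell r - 1) 1 k l + GFr p c (ell r) (ell r - 1) 1 l k)) =
      (∑ r ∈ Finset.range p.R, 2 * p.la r * GFr p c (ell r) (ell r - 1) 1 k l) +
      (∑ r ∈ Finset.range p.R, 2 * p.la r * GFr p c (ell r) (ell r - 1) 1 l k) := by
    rw [← Finset.sum_add_distrib]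
    refine Finset.sum_congr rfl fun r _ => ?_
    ring
  have hs2 : (∑ r ∈ Finset.range p.R, ∑ r' ∈ Finset.range p.R, 2 * (p.la r * p.la r') *
        (SS (ell r) (ell r') (c.e + 2 * k) (c.e + 2 * l) +
          SS (ell r) (ell r') (c.e + 2 * l) (c.e + 2 * k))) =
      (∑ r ∈ Finset.range p.R, ∑ r' ∈ Finset.range p.R, 2 * (p.la r * p.la r') *
        SS (ell r) (ell r') (c.e + 2 * k) (c.e + 2 * l)) +
      (∑ r ∈ Finset.range p.R, ∑ r' ∈ Finset.range p.R, 2 * (p.la r * p.la r') *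
        SS (ell r) (ell r') (c.e + 2 * l) (c.e + 2 * k)) := by
    rw [← Finset.sum_add_distrib]
    refine Finset.sum_congr rfl fun r _ => ?_
    rw [← Finset.sum_add_distrib]
    refine Finset.sum_congr rfl fun r' _ => ?_
    ring
  rw [hs1, hs2]
  unfold Nb
  rw [add_comm l k]
  ring

end Pool.Agent.W578.WQ
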